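import Pool.Agent.Lib.helper29.Pick2

open Filter Topology Finset
open scoped ComplexOrder ComplexConjugate

namespace Pool.Agent.Results.MP_72b8ed_an.NotDiagonal

open Pool.Agent.Lib.H29.Pick

/-- A kernel on `Ω`. -/
def KernelOn (Ω : Set ℂ) (f : ℂ → ℂ → ℂ) : Prop := IsKernel fun z w : Ω => f z w

/-- Holomorphic in `z`, antiholomorphic in `w`. -/
def HolOn (Ω : Set ℂ) (f : ℂ → ℂ → ℂ) : Prop :=
  (∀ w ∈ Ω, DifferentiableOn ℂ (fun z => f z w) Ω) ∧
    ∀ z ∈ Ω, DifferentiableOn ℂ (fun w => conj (f z w)) Ω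

/-- Near the origin `f(z, w) = ∑ c n z^n conj(w)^n`. -/
def Expands (f : ℂ → ℂ → ℂ) (c : ℕ → ℂ) : Prop :=
  ∃ r > 0, ∀ z w : ℂ, ‖z‖ < r → ‖w‖ < r → HasSum (fun n => c n * z ^ n * conj w ^ n) (f z w)

/-- `t` is the master certificate of the coefficient sequence `k`. -/
def IsMaster (k t : ℕ → ℝ) : Prop :=
  t 0 = 0 ∧ t 1 = k 1 ∧ ∀ b, 2 ≤ b → t b = max 0 (k b - ∑ u ∈ Ico 1 b, t u * k (b - u))

/-- The set `Ω¹`. -/
def omega1 (t : ℕ → ℝ) : Set ℂ :=
  {x | x ∈ interior {x : ℂ | BddAbove (Set.range fun b => t b * ‖x‖ ^ (2 * b))} ∧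
    ∑' b, t b * ‖x‖ ^ (2 * b) < 1}

noncomputable def th (n : ℕ) : ℝ := 1 / (2 * n * (n + 1))

noncomputable def kc : ℕ → ℝ
  | 0 => 1
  | n + 1 => ∑ i : Fin (n + 1), th (i + 1) * kc (n - i)
decreasing_by omega

lemma th0 : th 0 = 0 := by simp [th]
lemma th_nonneg (n : ℕ) : 0 ≤ th n := by unfold th; positivity
lemma kc0 : kc 0 = 1 := by rw [kc]
lemma kc_succ (n : ℕ) : kc (n + 1) = ∑ i ∈ range (n + 1), th (i + 1) * kc (n - i) := by
  rw [kc, Fin.sum_univ_eq_sum_range (fun i => th (i + 1) * kc (n - i))]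

lemma th_sum (n : ℕ) : ∑ i ∈ range (n + 1), th i = 1 / 2 - 1 / (2 * (n + 1)) := by
  induction n with
  | zero => simp [th0]
  | succ n ih => rw [sum_range_succ, ih, th]; push_cast; field_simp; ring

lemma th_le (n : ℕ) : ∑ i ∈ range n, th i ≤ 1 / 2 := by
  cases n with
  | zero => simp
  | succ n => rw [th_sum]; exact sub_le_self _ (by positivity)

lemma th_summable : Summable th := summable_of_sum_range_le th_nonneg th_le

lemma kc_bd (n : ℕ) : 0 < kc n ∧ kc n ≤ 1 := by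
  induction n using Nat.strong_induction_on with
  | _ n ih =>
    cases n with
    | zero => simp [kc0]
    | succ n =>
      rw [kc_succ]
      refine ⟨sum_pos (fun i _ => mul_pos (by unfold th; positivity) (ih _ (by omega)).1)
        (by simp), ?_⟩
      have h1 := th_le (n + 2)
      rw [sum_range_succ', th0] at h1
      refine (sum_le_sum fun i _ =>
        mul_le_of_le_one_right (th_nonneg _) (ih _ (by omega)).2).trans (by linarith)

lemma master : IsMaster kc th := by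
  refine ⟨th0, by simp [kc_succ 0, kc0], fun b hb => ?_⟩
  obtain ⟨n, rfl⟩ : ∃ n, b = n + 1 := ⟨b - 1, by omega⟩
  rw [kc_succ, sum_range_succ, sum_Ico_eq_sum_range]
  simp only [Nat.add_sub_cancel, Nat.sub_self, kc0, mul_one]
  have : ∑ i ∈ range n, th (1 + i) * kc (n + 1 - (1 + i))
      = ∑ i ∈ range n, th (i + 1) * kc (n - i) :=
    sum_congr rfl fun i _ => by rw [add_comm 1 i, Nat.add_sub_add_right]
  rw [this, add_sub_cancel_left, max_eq_right (th_nonneg _)]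

lemma omega_sub : omega1 th ⊆ Metric.ball 0 1 := by
  rintro x ⟨hx, -⟩
  rw [← interior_closedBall (0 : ℂ) one_ne_zero]
  refine interior_mono ?_ hx
  rintro y ⟨M, hM⟩
  rw [mem_closedBall_zero_iff]
  by_contra hy
  have h1 : 1 < ‖y‖ ^ 2 := one_lt_pow₀ (not_le.1 hy) two_ne_zero
  have h2 := (tendsto_pow_const_div_const_pow_of_one_lt 2 h1).const_mul (4 * M)
  rw [mul_zero] at h2
  obtain ⟨n, h3, h4⟩ := ((h2.eventually (gt_mem_nhds one_pos)).and (eventually_ge_atTop 1)).exists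
  have h5 : th n * ‖y‖ ^ (2 * n) ≤ M := hM ⟨n, rfl⟩
  have h6 : (1 : ℝ) ≤ n := by exact_mod_cast h4
  have h7 : 0 < (‖y‖ ^ 2) ^ n := by positivity
  rw [pow_mul, th, one_div_mul_eq_div, div_le_iff₀ (by positivity)] at h5
  rw [← mul_div_assoc, div_lt_one h7] at h3
  have h8 : 0 ≤ M := by
    by_contra h
    nlinarith [mul_pos (neg_pos.2 (not_le.1 h)) (show (0 : ℝ) < 2 * n * (n + 1) by positivity)]
  nlinarith [mul_nonneg h8 (show (0 : ℝ) ≤ n * (n - 1) by nlinarith)]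

noncomputable def θ (t : ℂ) : ℂ := ∑' n, (th n : ℂ) * t ^ n

lemma term_le {t : ℂ} (ht : ‖t‖ < 1) (n : ℕ) : ‖(th n : ℂ) * t ^ n‖ ≤ th n := by
  rw [norm_mul, norm_pow, Complex.norm_real, Real.norm_of_nonneg (th_nonneg n)]
  exact mul_le_of_le_one_right (th_nonneg n) (pow_le_one₀ (norm_nonneg _) ht.le)

lemma θ_norm {t : ℂ} (ht : ‖t‖ < 1) : ‖θ t‖ ≤ 1 / 2 :=
  (tsum_of_norm_bounded th_summable.hasSum (term_le ht)).trans
    (Real.tsum_le_of_sum_range_le th_nonneg th_le)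

lemma θ_sum {t : ℂ} (ht : ‖t‖ < 1) : Summable fun n => ‖(th n : ℂ) * t ^ n‖ :=
  .of_nonneg_of_le (fun _ => norm_nonneg _) (term_le ht) th_summable

lemma θ_diff : DifferentiableOn ℂ θ (Metric.ball 0 1) :=
  Complex.differentiableOn_tsum_of_summable_norm th_summable
    (fun n => by fun_prop) Metric.isOpen_ball fun n _ hw => term_le (mem_ball_zero_iff.1 hw) n

lemma θ_conj (t : ℂ) : conj (θ t) = θ (conj t) := by
  simp [θ, Complex.conj_tsum]

lemma θ0 : θ 0 = 0 := by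
  rw [θ, tsum_eq_single 0 fun n hn => by simp [hn]]; simp [th0]

lemma ne {a : ℂ} (h : ‖a‖ < 1) : 1 - a ≠ 0 := fun e => by
  rw [← sub_eq_zero.1 e] at h; simp at h

lemma k_sum {t : ℂ} (ht : ‖t‖ < 1) : HasSum (fun n => (kc n : ℂ) * t ^ n) (1 - θ t)⁻¹ := by
  have h1 : Summable fun n => ‖(kc n : ℂ) * t ^ n‖ :=
    .of_nonneg_of_le (fun _ => norm_nonneg _) (fun n => by
      rw [norm_mul, norm_pow, Complex.norm_real, Real.norm_of_nonneg (kc_bd n).1.le]
      exact mul_le_of_le_one_left (by positivity) (kc_bd n).2)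
      (summable_geometric_of_lt_one (norm_nonneg _) ht)
  have h2 := tsum_mul_tsum_eq_tsum_sum_range_of_summable_norm (θ_sum ht) h1
  have h3 := (summable_norm_sum_mul_range_of_summable_norm (θ_sum ht) h1).of_norm
  have h4 : ∀ n, ∑ i ∈ range (n + 1 + 1), (th i : ℂ) * t ^ i * (kc (n + 1 - i) * t ^ (n + 1 - i))
      = kc (n + 1) * t ^ (n + 1) := by
    intro n
    rw [sum_range_succ', kc_succ, th0]
    push_cast
    rw [sum_mul, zero_mul, zero_mul, add_zero]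
    refine sum_congr rfl fun i hi => ?_
    obtain ⟨j, rfl⟩ : ∃ j, n = i + j := ⟨n - i, by have := mem_range.1 hi; omega⟩
    rw [Nat.add_sub_cancel_left]; ring
  rw [h3.tsum_eq_zero_add] at h2
  simp only [h4] at h2
  have h5 := h1.of_norm.tsum_eq_zero_add
  have h6 : (1 - θ t)⁻¹ = ∑' n, (kc n : ℂ) * t ^ n := by
    refine inv_eq_of_mul_eq_one_right ?_
    rw [sub_mul, one_mul, θ, h2, h5]
    simp [th0, kc0]
  rw [h6]
  exact h1.of_norm.hasSum

noncomputable def G (z w : ℂ) : ℂ := (z + z ^ 2) / 4 * conj ((w + w ^ 2) / 4)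

lemma lt1 {z w : ℂ} (hz : z ∈ Metric.ball (0 : ℂ) 1) (hw : w ∈ Metric.ball (0 : ℂ) 1) :
    ‖z * conj w‖ < 1 := by
  rw [mem_ball_zero_iff] at hz hw
  rw [norm_mul, Complex.norm_conj]
  exact mul_lt_one_of_nonneg_of_lt_one_left (norm_nonneg _) hz hw.le

lemma F_lt {z w : ℂ} (hz : z ∈ Metric.ball (0 : ℂ) 1) (hw : w ∈ Metric.ball (0 : ℂ) 1) :
    ‖θ (z * conj w) + G z w‖ < 1 := by
  have h : ∀ z ∈ Metric.ball (0 : ℂ) 1, ‖(z + z ^ 2) / 4‖ ≤ 1 / 2 := fun z hz => by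
    rw [mem_ball_zero_iff] at hz
    have := norm_add_le z (z ^ 2)
    rw [norm_pow] at this
    rw [norm_div, Complex.norm_ofNat]
    nlinarith [norm_nonneg z]
  have h1 : ‖G z w‖ ≤ 1 / 2 * (1 / 2) := by
    rw [G, norm_mul, Complex.norm_conj]
    exact mul_le_mul (h z hz) (h w hw) (norm_nonneg _) (by norm_num)
  linarith [norm_add_le (θ (z * conj w)) (G z w), θ_norm (lt1 hz hw)]

lemma hol (c : ℂ) (hc : conj c = c) (h : ∀ z ∈ Metric.ball (0 : ℂ) 1, ∀ w ∈ Metric.ball (0 : ℂ) 1,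
    ‖θ (z * conj w) + c * G z w‖ < 1) :
    HolOn (Metric.ball 0 1) fun z w => (1 - (θ (z * conj w) + c * G z w))⁻¹ := by
  have h1 : ∀ w ∈ Metric.ball (0 : ℂ) 1, DifferentiableOn ℂ
      (fun z => (1 - (θ (z * conj w) + c * G z w))⁻¹) (Metric.ball 0 1) := fun w hw => by
    refine DifferentiableOn.inv (.const_sub (.add (θ_diff.comp (by fun_prop)
      fun z hz => mem_ball_zero_iff.2 (lt1 hz hw)) (by unfold G; fun_prop)) _)
      fun z hz => ne (h z hz w hw)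
  refine ⟨h1, fun z hz => (h1 z hz).congr fun w _ => ?_⟩
  simp only [map_inv₀, map_sub, map_add, map_one, θ_conj, map_mul, Complex.conj_conj, G, hc]
  rw [mul_comm (conj z) w, mul_comm (conj ((z + z ^ 2) / 4))]

theorem result : ∃ (Ω : Set ℂ) (kc t : ℕ → ℝ) (k h s : ℂ → ℂ → ℂ),
    IsOpen Ω ∧ IsConnected Ω ∧ 0 ∈ Ω ∧
    KernelOn Ω k ∧ HolOn Ω k ∧ Expands k (fun n => kc n) ∧ (∀ n, 0 < kc n) ∧ kc 0 = 1 ∧
    IsMaster kc t ∧ omega1 t ⊆ Ω ∧ KernelOn Ω h ∧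
    KernelOn Ω s ∧ HolOn Ω s ∧ (∀ z ∈ Ω, s z 0 = 1) ∧ (∀ z ∈ Ω, ∀ w ∈ Ω, s z w ≠ 0) ∧
    KernelOn Ω (fun z w => 1 - 1 / s z w) ∧
    (∀ z ∈ Ω, ∀ w ∈ Ω, k z w = (1 - h z w) * s z w) ∧ ¬ ∃ c, Expands s c := by
  have hθ : KernelOn (Metric.ball 0 1) fun z w => θ (z * conj w) :=
    kernel_hasSum (fun n (z w : Metric.ball (0 : ℂ) 1) => (th n : ℂ) * (z * conj (w : ℂ)) ^ n) _
      (fun z w => (θ_sum (lt1 z.2 w.2)).of_norm.hasSum)
      fun n => ((rank1 fun z : Metric.ball (0 : ℂ) 1 => (z : ℂ)).pow' n).smul' (th_nonneg n)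
  have hG : KernelOn (Metric.ball 0 1) G :=
    rank1 fun z : Metric.ball (0 : ℂ) 1 => ((z : ℂ) + z ^ 2) / 4
  have hθ1 : ∀ z ∈ Metric.ball (0 : ℂ) 1, ∀ w ∈ Metric.ball (0 : ℂ) 1, ‖θ (z * conj w)‖ < 1 :=
    fun z hz w hw => (θ_norm (lt1 hz hw)).trans_lt (by norm_num)
  have hk : KernelOn (Metric.ball 0 1) fun z w => (1 - θ (z * conj w))⁻¹ :=
    IsKernel.geom hθ fun z w => hθ1 _ z.2 _ w.2
  refine ⟨Metric.ball 0 1, kc, th, fun z w => (1 - θ (z * conj w))⁻¹,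
    fun z w => (1 - θ (z * conj w))⁻¹ * G z w, fun z w => (1 - (θ (z * conj w) + G z w))⁻¹,
    Metric.isOpen_ball, Metric.isConnected_ball one_pos, by simp, hk, ?_,
    ⟨1, one_pos, fun z w hz hw => ?_⟩, fun n => (kc_bd n).1, kc0, master, omega_sub,
    IsKernel.mul' hk hG, IsKernel.geom (IsKernel.add' hθ hG) fun z w => F_lt z.2 w.2, ?_,
    fun z _ => by simp [θ0, G], fun z hz w hw => inv_ne_zero (ne (F_lt hz hw)),
    (IsKernel.add' hθ hG).congr' fun z w => by simp, fun z hz w hw => ?_, ?_⟩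
  · simpa using hol 0 (by simp) fun z hz w hw => by simpa using hθ1 z hz w hw
  · simpa [mul_pow, mul_assoc] using
      k_sum (lt1 (mem_ball_zero_iff.2 hz) (mem_ball_zero_iff.2 hw))
  · simpa using hol 1 (by simp) fun z hz w hw => by simpa using F_lt hz hw
  · have h1 := ne (F_lt hz hw)
    have h2 := ne (hθ1 z hz w hw)
    field_simp
    ring
  · rintro ⟨c, r, hr, h⟩
    have h0 : ‖((r / 2 : ℝ) : ℂ)‖ < r := by
      rw [Complex.norm_real, Real.norm_of_nonneg (by positivity)]; linarith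
    have h1 := h _ _ h0 h0
    have h2 := h (-((r / 2 : ℝ) : ℂ)) (-((r / 2 : ℝ) : ℂ)) (by rwa [norm_neg]) (by rwa [norm_neg])
    simp only [mul_assoc, ← mul_pow, map_neg, neg_mul_neg] at h1 h2
    have h3 := add_left_cancel (sub_right_injective (inv_injective (h1.unique h2)))
    simp only [G, map_div₀, map_add, map_pow, map_neg, Complex.conj_ofReal, map_ofNat] at h3
    have h4 : ((r / 2 : ℝ) : ℂ) ^ 3 = 0 := by linear_combination 4 * h3
    have h5 : (r / 2 : ℝ) = 0 := by exact_mod_cast pow_eq_zero_iff (by norm_num) |>.1 h4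
    linarith

end Pool.Agent.Results.MP_72b8ed_an.NotDiagonal
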